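import Pool.Agent.AND2B.Env

/-!
# ACX: the protocol structure `Ana` with `F = ∅` from nine of the ten fields (without `Out`)

`anaE`: a term of `Ana V.G d 0 ∅ ..` whose `HS n k T run` is `V.Vi T ∨ Z.HS V n k T run` (by `Iff.rfl`).
`anaF`: the same in the language of `Ev`.
-/

set_option autoImplicit false

open MeasureTheory ProbabilityTheory

open scoped BigOperators NNReal ENNReal Matrix

noncomputable section

namespace Pool.Agent.ACX.H90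

open Pool.Agent.AND2B (Env Prd Ev Fld WL WLD Viol)
open Pool.Agent.ANP (Cfg Geo Fc Ana Win gm)
open Pool.Agent.ANP.H16 (Ana0 ana_of_ana0 ViOk viok_of)

/-- `Vi` is admissible for the empty set -/
theorem viokE {d : ℕ} (V : Env d) : ViOk (∅ : Set (V.X → ℝ)) V.Vi := by
  refine ⟨(AND2B.H16.viok V.E V.A V.ε V.R V.L).mono, ?_⟩
  intro T a r _ _
  unfold Win
  rw [measureReal_empty]
  norm_num

/-- nine fields -/
structure Nin {d : ℕ} (Z : Prd d) (V : Env d) : Prop where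
  ini : Z.Ini V
  beg : Z.Beg V
  mmon : Z.Mmon V
  flo : Z.Flo V
  fin : Z.Fin V
  rbeg : Z.Rbeg V
  rmon : Z.Rmon V
  kil : Z.Kil V
  rfin : Z.Rfin V

/-- the analysis with `F = ∅` -/
def ana0E {d : ℕ} {Z : Prd d} {V : Env d} (h : Nin Z V) :
    Ana0 V.G d 0 (∅ : Set (V.X → ℝ)) V.th V.kk V.cl V.Kn V.Dn V.p V.Vi where
  HS := Z.HS V
  HM := Z.HM V
  HR := Z.HR V
  m0 := fun _ => V.m
  ini := h.ini
  beg := h.beg
  mmon := h.mmon
  flo := h.flo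
  fin := h.fin
  rbeg := h.rbeg
  rmon := h.rmon
  kil := h.kil
  rfin := h.rfin
  out := by
    intro T run a r _ _ _ _ _ _
    unfold Win
    rw [measureReal_empty]
    norm_num

/-- THE PROTOCOL STRUCTURE WITH `F = ∅` -/
def anaE {d : ℕ} {Z : Prd d} {V : Env d} (h : Nin Z V) (hw : 0 < V.w) (hth : 0 < V.th) :
    Ana V.G d 0 (∅ : Set (V.X → ℝ)) V.th V.kk V.cl V.Kn V.Dn V.p :=
  ana_of_ana0 (viokE V) (AND2B.H16.cl_pos hw hth) (ana0E h)

theorem anaE_HS {d : ℕ} {Z : Prd d} {V : Env d} (h : Nin Z V) (hw : 0 < V.w) (hth : 0 < V.th)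
    (n k : ℕ) (T : Cfg V.X) (run : Finset V.X) :
    (anaE h hw hth).HS n k T run ↔ V.Vi T ∨ Z.HS V n k T run := Iff.rfl

/-- the start, from a start of the analysis -/
theorem anaE_start {d : ℕ} {Z : Prd d} {V : Env d} (h : Nin Z V) (hw : 0 < V.w) (hth : 0 < V.th)
    (V₀ : V.X → ℝ) (m₁ : V.X → ℂ) (hs : Z.HS V 0 0 ⟨V₀, fun _ => V.cl 0, m₁⟩ Finset.univ) :
    (anaE h hw hth).HS 0 0 ⟨V₀, fun _ => V.cl 0, m₁⟩ Finset.univ := Or.inr hs

/-- the end: a functional which vanishes off `WL` -/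
theorem anaE_end {d : ℕ} {Z : Prd d} {V : Env d} (h : Nin Z V) (hw : 0 < V.w) (hth : 0 < V.th)
    (φ : (V.X → ℝ) → ℝ) (ψ : V.X → (V.X → ℝ) → ℝ) (e : ℝ) (n k : ℕ)
    (hφ : ∀ U, ¬ WL V.E V.L U → φ U = 0) (he : 0 ≤ e) (hψ : ∀ x U, 0 ≤ ψ x U)
    (hend : ∀ (T : Cfg V.X) (run : Finset V.X), ¬ V.Vi T → Z.HS V n k T run →
      Fc V.G V.kk V.cl V.Dn n k ∅ T run → (∀ x, x ∉ run → T.s x = 0) →
      φ T.V ≤ e + ∑ x ∈ Finset.univ \ run, ψ x T.V) :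
    ∀ (T : Cfg V.X) (run : Finset V.X), (anaE h hw hth).HS n k T run →
      Fc V.G V.kk V.cl V.Dn n k ∅ T run → (∀ x, x ∉ run → T.s x = 0) →
      φ T.V ≤ e + ∑ x ∈ Finset.univ \ run, ψ x T.V := by
  intro T run hHS hF hd
  by_cases hV : V.Vi T
  · obtain ⟨D, _, hD⟩ := hV
    rw [hφ T.V (fun hW => hD (hW D))]
    have := Finset.sum_nonneg (s := Finset.univ \ run) (f := fun x => ψ x T.V)
      fun x _ => hψ x T.V
    linarith
  · exact hend T run hV (hHS.resolve_left hV) hF hd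

/-- the nine fields in the language of `Ev` -/
theorem ninEv (Z : (d : ℕ) → ℝ → ℝ → ℝ → ℝ → Prd d) (es : ℝ)
    (ini : Fld Z es Prd.Ini) (beg : Fld Z es Prd.Beg) (mmon : Fld Z es Prd.Mmon)
    (flo : Fld Z es Prd.Flo) (fin : Fld Z es Prd.Fin) (rbeg : Fld Z es Prd.Rbeg)
    (rmon : Fld Z es Prd.Rmon) (kil : Fld Z es Prd.Kil) (rfin : Fld Z es Prd.Rfin)
    (d : ℕ) (a c C : ℝ) (hd : 3 ≤ d) (ha : 0 < a) (hc : 0 < c) (hc' : c ≤ 1 / 2) (hC : 1 ≤ C) :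
    Ev d a es c C fun V => Nin (Z d a es c C) V := by
  have h := ((((((((ini d a c C hd ha hc hc' hC).and (beg d a c C hd ha hc hc' hC)).and
    (mmon d a c C hd ha hc hc' hC)).and (flo d a c C hd ha hc hc' hC)).and
    (fin d a c C hd ha hc hc' hC)).and (rbeg d a c C hd ha hc hc' hC)).and
    (rmon d a c C hd ha hc hc' hC)).and (kil d a c C hd ha hc hc' hC)).and
    (rfin d a c C hd ha hc hc' hC)
  refine h.imp fun V hV => ?_
  obtain ⟨⟨⟨⟨⟨⟨⟨⟨h1, h2⟩, h3⟩, h4⟩, h5⟩, h6⟩, h7⟩, h8⟩, h9⟩ := hV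
  exact ⟨h1, h2, h3, h4, h5, h6, h7, h8, h9⟩

end Pool.Agent.ACX.H90
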